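import Mathlib
import Pool.Agent.Results.MP_916210_gt.BetaOmega

set_option autoImplicit false

open Set Filter Topology
open Pool.Agent.Results.MP_916210_gt.BetaOmega

namespace Pool.Agent.N483.Glue

/-- the pointwise topology on bundled continuous functions -/
abbrev pt (X : Type) [TopologicalSpace X] : TopologicalSpace C(X, ℝ) :=
  TopologicalSpace.induced (fun f : C(X, ℝ) => (f : X → ℝ)) inferInstance

/-- bundled and unbundled continuous functions -/
def K (X : Type) [TopologicalSpace X] : C(X, ℝ) ≃ₗ[ℝ] Cp X where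
  toFun f := ⟨f, f.continuous⟩
  invFun f := ⟨f.1, f.2⟩
  map_add' f g := rfl
  map_smul' c f := rfl
  left_inv f := by ext; rfl
  right_inv f := by apply Subtype.ext; rfl

theorem K_cont (X : Type) [TopologicalSpace X] :
    @Continuous _ _ (pt X) inferInstance (K X) := by
  let _ := pt X
  refine continuous_induced_rng.2 ?_
  exact continuous_induced_dom

theorem K_symm_cont (X : Type) [TopologicalSpace X] :
    @Continuous _ _ inferInstance (pt X) (K X).symm := by
  let _ := pt X
  refine continuous_induced_rng.2 ?_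
  exact continuous_subtype_val

/-- transfer of linear homeomorphisms -/
theorem of_lequiv {X Y : Type} [TopologicalSpace X] [TopologicalSpace Y]
    (h : LEquivalent X Y) : ∃ e : C(X, ℝ) ≃ₗ[ℝ] C(Y, ℝ),
      @Continuous _ _ (pt X) (pt Y) (⇑e) ∧ @Continuous _ _ (pt Y) (pt X) (⇑e.symm) := by
  obtain ⟨e⟩ := h
  refine ⟨((K X).trans e.toLinearEquiv).trans (K Y).symm, ?_, ?_⟩
  · have h1 := K_cont X
    have h2 := K_symm_cont Y
    have h3 := e.continuous
    have h4 : @Continuous _ _ (pt X) (pt Y) ((K Y).symm ∘ e ∘ K X) :=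
      @Continuous.comp _ _ _ (pt X) _ (pt Y) _ _ h2
        (@Continuous.comp _ _ _ (pt X) _ _ _ _ h3 h1)
    exact h4
  · have h1 := K_cont Y
    have h2 := K_symm_cont X
    have h3 := e.symm.continuous
    have h4 : @Continuous _ _ (pt Y) (pt X) ((K X).symm ∘ e.symm ∘ K Y) :=
      @Continuous.comp _ _ _ (pt Y) _ (pt X) _ _ h2
        (@Continuous.comp _ _ _ (pt Y) _ _ _ _ h3 h1)
    exact h4

theorem to_lequiv {X Y : Type} [TopologicalSpace X] [TopologicalSpace Y]
    (h : ∃ e : C(X, ℝ) ≃ₗ[ℝ] C(Y, ℝ),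
      @Continuous _ _ (pt X) (pt Y) (⇑e) ∧ @Continuous _ _ (pt Y) (pt X) (⇑e.symm)) :
    LEquivalent X Y := by
  obtain ⟨e, h1, h2⟩ := h
  refine ⟨{ toLinearEquiv := ((K X).symm.trans e).trans (K Y), continuous_toFun := ?_,
            continuous_invFun := ?_ }⟩
  · have h3 := K_cont Y
    have h4 := K_symm_cont X
    exact @Continuous.comp _ _ _ _ (pt Y) _ _ _ h3
      (@Continuous.comp _ _ _ _ (pt X) (pt Y) _ _ h1 h4)
  · have h3 := K_cont X
    have h4 := K_symm_cont Y
    exact @Continuous.comp _ _ _ _ (pt X) _ _ _ h3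
      (@Continuous.comp _ _ _ _ (pt Y) (pt X) _ _ h2 h4)

theorem to_lEmbedded {X : Type} [TopologicalSpace X] {A : Set X}
    (h : ∃ φ : C(A, ℝ) →ₗ[ℝ] C(X, ℝ), @Continuous _ _ (pt A) (pt X) (⇑φ) ∧
      ∀ f : C(A, ℝ), ∀ a : A, φ f a = f a) : IsLEmbedded A := by
  obtain ⟨φ, h1, h2⟩ := h
  refine ⟨{ toLinearMap := ((K X).toLinearMap.comp φ).comp (K A).symm.toLinearMap,
            cont := ?_ }, fun f a => ?_⟩
  · have h3 := K_cont X
    have h4 := K_symm_cont A
    exact @Continuous.comp _ _ _ _ (pt X) _ _ _ h3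
      (@Continuous.comp _ _ _ _ (pt A) (pt X) _ _ h1 h4)
  · exact h2 ((K A).symm f) a

/-- the one-point compactification of `ℕ` is `ℕ∞` -/
theorem exists_homeo : Nonempty (OnePoint ℕ ≃ₜ ℕ∞) := by
  let e : OnePoint ℕ ≃ ℕ∞ := Equiv.refl _
  have h : Continuous e := by
    rw [OnePoint.continuous_iff_from_nat]
    exact ENat.tendsto_natCast_nhds_top
  exact ⟨h.homeoOfEquivCompactToT2⟩

end Pool.Agent.N483.Glue
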